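import Pool.Agent.J4.H88.RSA.Process
import Pool.Agent.J4.H88.RSA.Moments

/-!
# The asymptotic variance of the jamming count for RSA of `r`-mers on the line
-/

namespace Pool.Agent.Results.MP_669328_pr.AsymptoticVariance

open Finset MeasureTheory ProbabilityTheory Filter Topology Pool.Agent.J4.H88.RSA

lemma D_cadd {r : ℕ} (hr : 0 < r) (F : Finset ℕ) (c : ℝ) (ψ : ℕ → ℝ) :
    D r F (fun x => c + ψ x) = c + D r F ψ := by
  rw [D_add hr F.card F (fun _ => c) ψ le_rfl, D_const hr c F.card F le_rfl]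

lemma D_cmul {r : ℕ} (hr : 0 < r) (F : Finset ℕ) (c : ℝ) (ψ : ℕ → ℝ) :
    D r F (fun x => c * ψ x) = c * D r F ψ := D_smul hr c F.card F ψ le_rfl

/-- the mean -/
noncomputable def mn (r n : ℕ) : ℝ := D r (range (n + 1 - r)) (fun x => (x : ℝ))

/-- the centred second moment -/
noncomputable def qn (r n : ℕ) : ℝ := D r (range (n + 1 - r)) (fun x => ((x : ℝ) - aff r n) ^ 2)

lemma sum_refl (k : ℕ) (f : ℕ → ℝ) :
    ∑ i ∈ range (k + 1), f (k - i) = ∑ i ∈ range (k + 1), f i := by
  have := Finset.sum_range_reflect f (k + 1)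
  rw [← this]
  apply Finset.sum_congr rfl
  intro i _
  congr 1

lemma meanRec {r : ℕ} (hr : 0 < r) : MeanRec r (mn r) := by
  refine ⟨fun n hn => ?_, fun k => ?_⟩
  · rw [mn, D_interval_low hn]
    simp
  · rw [mn, D_interval hr]
    have h1 : ∀ i ∈ range (k + 1), D r (range (i + 1 - r)) (fun x =>
        D r (range (k - i + 1 - r)) (fun y => ((x + y + 1 : ℕ) : ℝ)))
        = (mn r (k - i) + 1) + mn r i := by
      intro i _
      have h2 : (fun x : ℕ => D r (range (k - i + 1 - r)) (fun y => ((x + y + 1 : ℕ) : ℝ)))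
          = fun x : ℕ => (mn r (k - i) + 1) + (x : ℝ) := by
        funext x
        have h3 : (fun y : ℕ => ((x + y + 1 : ℕ) : ℝ)) = fun y : ℕ => ((x : ℝ) + 1) + (y : ℝ) := by
          funext y
          push_cast
          ring
        rw [h3, D_cadd hr, mn]
        ring
      rw [h2, D_cadd hr]
      rfl
    rw [Finset.sum_congr rfl h1, Finset.sum_add_distrib, Finset.sum_add_distrib,
      sum_refl k (mn r)]
    simp
    ring

lemma D_centred {r : ℕ} (hr : 0 < r) (n : ℕ) (c : ℝ) :
    D r (range (n + 1 - r)) (fun x => (x : ℝ) - c) = mn r n - c := by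
  have : (fun x : ℕ => (x : ℝ) - c) = fun x : ℕ => -c + (x : ℝ) := by
    funext x
    ring
  rw [this, D_cadd hr, mn]
  ring

lemma secRec {r : ℕ} (hr : 0 < r) : SecRec r (mn r) (qn r) := by
  refine ⟨fun n hn => ?_, fun k => ?_⟩
  · rw [qn, D_interval_low hn]
    simp
  · rw [qn, D_interval hr]
    have h1 : ∀ i ∈ range (k + 1), D r (range (i + 1 - r)) (fun x =>
        D r (range (k - i + 1 - r)) (fun y => (((x + y + 1 : ℕ) : ℝ) - aff r (k + r)) ^ 2))
        = (qn r (k - i) + 2 * ((mn r i - aff r i) * (mn r (k - i) - aff r (k - i)))) + qn r i := by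
      intro i hi
      have hi' : i ≤ k := by
        have := Finset.mem_range.1 hi
        omega
      have ha : aff r (k + r) = 1 + aff r i + aff r (k - i) := by
        unfold aff
        push_cast [hi']
        ring
      have h2 : (fun x : ℕ => D r (range (k - i + 1 - r))
          (fun y => (((x + y + 1 : ℕ) : ℝ) - aff r (k + r)) ^ 2))
          = fun x : ℕ => (qn r (k - i) + (2 * (mn r (k - i) - aff r (k - i))) *
            ((x : ℝ) - aff r i)) + ((x : ℝ) - aff r i) ^ 2 := by
        funext x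
        have h3 : (fun y : ℕ => (((x + y + 1 : ℕ) : ℝ) - aff r (k + r)) ^ 2)
            = fun y : ℕ => ((x : ℝ) - aff r i) ^ 2
              + ((2 * ((x : ℝ) - aff r i)) * ((y : ℝ) - aff r (k - i))
                + ((y : ℝ) - aff r (k - i)) ^ 2) := by
          funext y
          rw [ha]
          push_cast
          ring
        rw [h3, D_cadd hr, D_add hr _ _ (fun y : ℕ => (2 * ((x : ℝ) - aff r i)) *
          ((y : ℝ) - aff r (k - i))) (fun y : ℕ => ((y : ℝ) - aff r (k - i)) ^ 2) le_rfl,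
          D_cmul hr, D_centred hr, qn]
        ring
      rw [h2, D_add hr _ _ (fun x : ℕ => qn r (k - i) + (2 * (mn r (k - i) - aff r (k - i))) *
            ((x : ℝ) - aff r i)) (fun x : ℕ => ((x : ℝ) - aff r i) ^ 2) le_rfl, D_cadd hr,
            D_cmul hr, D_centred hr]
      rw [← qn]
      ring
    rw [Finset.sum_congr rfl h1, Finset.sum_add_distrib, Finset.sum_add_distrib,
      sum_refl k (qn r), ← Finset.mul_sum]
    ring

lemma variance_count {r : ℕ} (hr : 0 < r) (n : ℕ) :
    Var[fun c : ℕ => (c : ℝ); (count r n).toMeasure]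
      = qn r n - (mn r n - aff r n) ^ 2 := by
  have hmem : MemLp (fun c : ℕ => (c : ℝ)) 2 (count r n).toMeasure := by
    rw [memLp_two_iff_integrable_sq (Measurable.of_discrete.aestronglyMeasurable)]
    exact (integral_count hr n (fun x => (x : ℝ) ^ 2)).1
  rw [variance_eq_sub hmem, (integral_count hr n (fun x => (x : ℝ))).2]
  have h1 : ∫ x, ((fun c : ℕ => (c : ℝ)) ^ 2) x ∂(count r n).toMeasure
      = D r (range (n + 1 - r)) (fun x => (x : ℝ) ^ 2) :=
    (integral_count hr n (fun x => (x : ℝ) ^ 2)).2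
  have h2 : qn r n = D r (range (n + 1 - r)) (fun x => (x : ℝ) ^ 2)
      - 2 * aff r n * mn r n + aff r n ^ 2 := by
    have h3 : (fun x : ℕ => ((x : ℝ) - aff r n) ^ 2)
        = fun x : ℕ => aff r n ^ 2 + ((-2 * aff r n) * (x : ℝ) + (x : ℝ) ^ 2) := by
      funext x
      ring
    rw [qn, h3, D_cadd hr, D_add hr _ _ (fun x : ℕ => (-2 * aff r n) * (x : ℝ))
      (fun x : ℕ => (x : ℝ) ^ 2) le_rfl, D_cmul hr, ← mn]
    ring
  rw [h1, h2, mn]
  ring

/-- **Asymptotic variance of the jamming count.**  Let `r ≥ 2`, let `C_n` be the number of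
`r`-mers in the jammed configuration of random sequential adsorption on `n` sites (its law is
`count r n`, the law of the number of occupied blocks after `n` placements, when the configuration
is certainly jammed).  Then `Var(C_n) / n` tends to the explicit number `v r`.  More precisely,
`Var(C_n) = (n + r) v(r) + O(δ^n)` for every `δ > 0`. -/
theorem result (r : ℕ) (hr : 2 ≤ r) :
    (∀ n : ℕ, ∀ T ∈ (config r n n).support, free r n T = ∅) ∧
    Tendsto (fun n : ℕ => Var[fun c : ℕ => (c : ℝ); (count r n).toMeasure] / n) atTop (𝓝 (v r)) ∧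
    ∀ δ : ℝ, 0 < δ → ∃ K : ℝ, ∀ n : ℕ,
      |Var[fun c : ℕ => (c : ℝ); (count r n).toMeasure] - ((n : ℝ) + r) * v r| ≤ K * δ ^ n := by
  have hr0 : 0 < r := by omega
  have hmain : ∀ δ : ℝ, 0 < δ → ∃ K : ℝ, ∀ n : ℕ,
      |Var[fun c : ℕ => (c : ℝ); (count r n).toMeasure] - ((n : ℝ) + r) * v r| ≤ K * δ ^ n := by
    intro δ hδ
    obtain ⟨K, _, hK⟩ := dec_var hr (meanRec hr0) (secRec hr0) δ hδ
    refine ⟨K, fun n => ?_⟩
    have := hK n
    rw [PowerSeries.coeff_mk] at this
    rw [variance_count hr0]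
    exact this
  refine ⟨fun n T hT => config_support hr0 n T hT, ?_, hmain⟩
  obtain ⟨K, hK⟩ := hmain 1 one_pos
  have h1 : Tendsto (fun n : ℕ => (K + |(r : ℝ) * v r|) / (n : ℝ)) atTop (𝓝 0) :=
    tendsto_const_div_atTop_nhds_zero_nat _
  rw [tendsto_iff_dist_tendsto_zero]
  refine squeeze_zero' (Eventually.of_forall fun n => dist_nonneg) ?_ h1
  filter_upwards [eventually_gt_atTop 0] with n hn
  have hn' : (0 : ℝ) < n := by exact_mod_cast hn
  rw [Real.dist_eq]
  have h2 : Var[fun c : ℕ => (c : ℝ); (count r n).toMeasure] / n - v r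
      = ((Var[fun c : ℕ => (c : ℝ); (count r n).toMeasure] - ((n : ℝ) + r) * v r)
        + r * v r) / n := by
    field_simp
    ring
  rw [h2, abs_div, abs_of_pos hn']
  gcongr
  refine (abs_add_le _ _).trans ?_
  have := hK n
  rw [one_pow, mul_one] at this
  gcongr

end Pool.Agent.Results.MP_669328_pr.AsymptoticVariance
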